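import Mathlib

set_option autoImplicit false

namespace Pool.Agent.Helper7.FracHall

open Finset

variable {V : Type} [Fintype V] [DecidableEq V] (G : SimpleGraph V) [DecidableRel G.Adj]

/-- greedy selection, one level at a time -/
lemma greedy (ρ : ℕ) (hρ : ∀ S : Finset V, ∃ I ⊆ S, G.IsIndepSet (I : Set V) ∧ S.card ≤ ρ * I.card)
    (w : V → ℝ) (hw : ∀ v, 0 < w v → True) (lev : V → ℤ) (A : Finset V)
    (hlow : ∀ v ∈ A, (2:ℝ) ^ (lev v) ≤ w v) (hupp : ∀ v ∈ A, w v ≤ 2 * (2:ℝ) ^ (lev v)) :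
    ∃ J ⊆ A, G.IsIndepSet (J : Set V) ∧
      ∑ v ∈ A.filter (fun u => ¬ ∃ v ∈ J, G.Adj v u ∧ lev u < lev v), w v
        ≤ 2 * ρ * ∑ v ∈ J, w v := by
  classical
  induction' hn : A.card using Nat.strong_induction_on with n ih generalizing A
  rcases A.eq_empty_or_nonempty with rfl | hne
  · exact ⟨∅, by simp, by simp [SimpleGraph.IsIndepSet], by simp⟩
  obtain ⟨a, haA, ha⟩ := A.exists_min_image lev hne
  set Vi := A.filter (fun v => lev v = lev a) with hVi
  set A' := A.filter (fun v => lev a < lev v) with hA'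
  have haVi : a ∈ Vi := by simp [hVi, haA]
  have hsplit : A = A' ∪ Vi := by
    ext v
    simp only [hVi, hA', mem_union, mem_filter]
    constructor
    · intro hv
      rcases (ha v hv).lt_or_eq with h | h
      · left; exact ⟨hv, h⟩
      · right; exact ⟨hv, h.symm⟩
    · rintro (h | h) <;> exact h.1
  have hdisj : Disjoint A' Vi := by
    rw [Finset.disjoint_left]
    intro v hv hv'
    simp only [hVi, hA', mem_filter] at hv hv'
    omega
  have hcard : A'.card < n := by
    rw [← hn, hsplit, card_union_of_disjoint hdisj]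
    have : 0 < Vi.card := card_pos.2 ⟨a, haVi⟩
    omega
  obtain ⟨J', hJ', hJ'ind, hJ'w⟩ := ih A'.card hcard A'
    (fun v hv => hlow v (by rw [hsplit]; exact mem_union_left _ hv))
    (fun v hv => hupp v (by rw [hsplit]; exact mem_union_left _ hv)) rfl
  obtain ⟨I, hI, hIind, hIcard⟩ := hρ (Vi.filter (fun u => ¬ ∃ v ∈ J', G.Adj v u))
  have hIVi : I ⊆ Vi := hI.trans (filter_subset _ _)
  have hIlev : ∀ u ∈ I, lev u = lev a := fun u hu => (mem_filter.1 (hIVi hu)).2
  have hJ'lev : ∀ u ∈ J', lev a < lev u := fun u hu => (mem_filter.1 (hJ' hu)).2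
  have hIJ : Disjoint J' I := by
    rw [Finset.disjoint_left]
    intro v hv hv'
    have := hIlev v hv'
    have := hJ'lev v hv
    omega
  refine ⟨J' ∪ I, ?_, ?_, ?_⟩
  · rw [hsplit]; exact union_subset_union hJ' hIVi
  · intro u hu v hv huv hadj
    rw [Finset.mem_coe, mem_union] at hu hv
    rcases hu with hu | hu <;> rcases hv with hv | hv
    · exact hJ'ind (Finset.mem_coe.2 hu) (Finset.mem_coe.2 hv) huv hadj
    · exact (mem_filter.1 (hI hv)).2 ⟨u, hu, hadj⟩
    · exact (mem_filter.1 (hI hu)).2 ⟨v, hv, hadj.symm⟩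
    · exact hIind (Finset.mem_coe.2 hu) (Finset.mem_coe.2 hv) huv hadj
  · -- weights
    have h1 : A.filter (fun u => ¬ ∃ v ∈ J' ∪ I, G.Adj v u ∧ lev u < lev v)
        ⊆ A'.filter (fun u => ¬ ∃ v ∈ J', G.Adj v u ∧ lev u < lev v)
          ∪ Vi.filter (fun u => ¬ ∃ v ∈ J', G.Adj v u) := by
      intro u hu
      rw [mem_filter] at hu
      obtain ⟨huA, hu⟩ := hu
      rw [hsplit, mem_union] at huA
      rw [mem_union]
      rcases huA with h | h
      · left
        exact mem_filter.2 ⟨h, fun ⟨v, hv, hh⟩ => hu ⟨v, mem_union_left _ hv, hh⟩⟩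
      · right
        refine mem_filter.2 ⟨h, fun ⟨v, hv, hh⟩ => hu ⟨v, mem_union_left _ hv, hh, ?_⟩⟩
        have := hJ'lev v hv
        have := (mem_filter.1 h).2
        omega
    have hnn : ∀ v ∈ A, 0 ≤ w v := fun v hv => le_trans (by positivity) (hlow v hv)
    have hnn' : ∀ v ∈ A'.filter (fun u => ¬ ∃ v ∈ J', G.Adj v u ∧ lev u < lev v)
          ∪ Vi.filter (fun u => ¬ ∃ v ∈ J', G.Adj v u), 0 ≤ w v := by
      intro v hv
      apply hnn
      rw [hsplit]
      rw [mem_union] at hv ⊢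
      rcases hv with h | h
      · left; exact (mem_filter.1 h).1
      · right; exact (mem_filter.1 h).1
    have h2 : ∑ v ∈ Vi.filter (fun u => ¬ ∃ v ∈ J', G.Adj v u), w v ≤ 2 * ρ * ∑ v ∈ I, w v := by
      have h3 : ∑ v ∈ Vi.filter (fun u => ¬ ∃ v ∈ J', G.Adj v u), w v
          ≤ ∑ _v ∈ Vi.filter (fun u => ¬ ∃ v ∈ J', G.Adj v u), 2 * (2:ℝ) ^ (lev a) := by
        apply sum_le_sum
        intro v hv
        have hv' := (mem_filter.1 hv).1
        have h4 := hupp v (by rw [hsplit]; exact mem_union_right _ hv')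
        rwa [(mem_filter.1 hv').2] at h4
      have h5 : ∑ _v ∈ I, (2:ℝ) ^ (lev a) ≤ ∑ v ∈ I, w v := by
        apply sum_le_sum
        intro v hv
        have h4 := hlow v (by rw [hsplit]; exact mem_union_right _ (hIVi hv))
        rwa [hIlev v hv] at h4
      rw [sum_const, nsmul_eq_mul] at h3 h5
      have h6 : ((Vi.filter (fun u => ¬ ∃ v ∈ J', G.Adj v u)).card : ℝ) ≤ ρ * I.card := by
        exact_mod_cast hIcard
      have h7 : (0:ℝ) < (2:ℝ) ^ (lev a) := by positivity
      calc _ ≤ ((Vi.filter (fun u => ¬ ∃ v ∈ J', G.Adj v u)).card : ℝ) * (2 * (2:ℝ) ^ (lev a)) := h3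
      _ ≤ (ρ * I.card) * (2 * (2:ℝ) ^ (lev a)) := by gcongr
      _ = 2 * ρ * (I.card * (2:ℝ) ^ (lev a)) := by ring
      _ ≤ 2 * ρ * ∑ v ∈ I, w v := by gcongr
    calc _ ≤ ∑ v ∈ A'.filter (fun u => ¬ ∃ v ∈ J', G.Adj v u ∧ lev u < lev v)
          ∪ Vi.filter (fun u => ¬ ∃ v ∈ J', G.Adj v u), w v :=
          sum_le_sum_of_subset_of_nonneg h1 (fun v hv _ => hnn' v hv)
    _ = ∑ v ∈ A'.filter (fun u => ¬ ∃ v ∈ J', G.Adj v u ∧ lev u < lev v), w v
          + ∑ v ∈ Vi.filter (fun u => ¬ ∃ v ∈ J', G.Adj v u), w v := by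
          apply sum_union
          exact Disjoint.mono (filter_subset _ _) (filter_subset _ _) hdisj
    _ ≤ 2 * ρ * ∑ v ∈ J', w v + 2 * ρ * ∑ v ∈ I, w v := add_le_add hJ'w h2
    _ = 2 * ρ * ∑ v ∈ J' ∪ I, w v := by rw [sum_union hIJ]; ring

omit [Fintype V] in
lemma sum_biUnion_le (w : V → ℝ) (hw : ∀ v, 0 ≤ w v) (J : Finset V) (t : V → Finset V) :
    ∑ u ∈ J.biUnion t, w u ≤ ∑ v ∈ J, ∑ u ∈ t v, w u := by
  induction J using Finset.induction_on with
  | empty => simp
  | insert a J ha ih =>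
    rw [biUnion_insert, sum_insert ha]
    have h1 := sum_union_inter (s₁ := t a) (s₂ := J.biUnion t) (f := w)
    have h2 : 0 ≤ ∑ u ∈ t a ∩ J.biUnion t, w u := sum_nonneg (fun v _ => hw v)
    linarith

/-- the weighted statement -/
lemma weighted (ρ d : ℕ) (hd : ∀ v, G.degree v ≤ d)
    (hρ : ∀ S : Finset V, ∃ I ⊆ S, G.IsIndepSet (I : Set V) ∧ S.card ≤ ρ * I.card)
    (w : V → ℝ) (hw : ∀ v, 0 ≤ w v) :
    ∃ J : Finset V, G.IsIndepSet (J : Set V) ∧
      ∑ v, w v ≤ (2 * ρ + 1) * (Nat.clog 2 d + 1) * ∑ v ∈ J, w v := by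
  classical
  set L : ℕ := Nat.clog 2 d + 1 with hL
  have hL0 : 0 < L := by omega
  have hLd : (d:ℝ) ≤ 2 ^ (L - 1) := by
    have : d ≤ 2 ^ Nat.clog 2 d := Nat.le_pow_clog (by norm_num) d
    have h2 : L - 1 = Nat.clog 2 d := by omega
    rw [h2]; exact_mod_cast this
  set lev : V → ℤ := fun v => Int.log 2 (w v) with hlev
  set P : Finset V := univ.filter (fun v => 0 < w v) with hP
  set cls : ℕ → Finset V := fun r => P.filter (fun v => lev v % L = r) with hcls
  -- the best residue class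
  obtain ⟨r, hr, hrmax⟩ := (range L).exists_max_image (fun r => ∑ v ∈ cls r, w v)
    ⟨0, mem_range.2 hL0⟩
  have htot : ∑ v, w v ≤ L * ∑ v ∈ cls r, w v := by
    have h1 : ∑ v, w v = ∑ v ∈ P, w v := by
      rw [hP, sum_filter]
      apply sum_congr rfl
      intro v _
      split_ifs with h
      · rfl
      · exact le_antisymm (not_lt.1 h) (hw v)
    have h2 : ∑ v ∈ P, w v = ∑ r ∈ range L, ∑ v ∈ cls r, w v := by
      have hmaps : ∀ v ∈ P, (lev v % L).toNat ∈ range L := by
        intro v _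
        rw [mem_range]
        have h3 := Int.emod_lt_of_pos (lev v) (show (0:ℤ) < L by exact_mod_cast hL0)
        have h4 := Int.emod_nonneg (lev v) (show (L:ℤ) ≠ 0 by omega)
        omega
      rw [← sum_fiberwise_of_maps_to hmaps]
      apply sum_congr rfl
      intro r _
      apply sum_congr _ (fun _ _ => rfl)
      ext v
      simp only [hcls, mem_filter]
      have h4 := Int.emod_nonneg (lev v) (show (L:ℤ) ≠ 0 by omega)
      constructor
      · rintro ⟨h5, h6⟩; exact ⟨h5, by omega⟩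
      · rintro ⟨h5, h6⟩; exact ⟨h5, by omega⟩
    rw [h1, h2]
    calc ∑ r ∈ range L, ∑ v ∈ cls r, w v ≤ ∑ _r ∈ range L, ∑ v ∈ cls r, w v :=
          sum_le_sum (fun s hs => hrmax s hs)
    _ = L * ∑ v ∈ cls r, w v := by rw [sum_const, card_range, nsmul_eq_mul]
  set A := cls r with hA
  have hApos : ∀ v ∈ A, 0 < w v := fun v hv => (mem_filter.1 (mem_filter.1 hv).1).2
  have hlow : ∀ v ∈ A, (2:ℝ) ^ (lev v) ≤ w v := fun v hv => by
    have := Int.zpow_log_le_self (R := ℝ) (b := 2) (by norm_num) (hApos v hv)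
    exact_mod_cast this
  have hupp : ∀ v ∈ A, w v < 2 * (2:ℝ) ^ (lev v) := fun v hv => by
    have := Int.lt_zpow_succ_log_self (R := ℝ) (b := 2) (by norm_num) (w v)
    rw [zpow_add_one₀ (by norm_num), mul_comm] at this
    exact_mod_cast this
  obtain ⟨J, hJA, hJ, hJw⟩ := greedy G ρ hρ w (fun _ _ => trivial) lev A hlow
    (fun v hv => (hupp v hv).le)
  refine ⟨J, hJ, ?_⟩
  -- the weight of the removed vertices
  have hrem : ∑ u ∈ A.filter (fun u => ∃ v ∈ J, G.Adj v u ∧ lev u < lev v), w u ≤ ∑ v ∈ J, w v := by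
    have h1 : ∑ u ∈ A.filter (fun u => ∃ v ∈ J, G.Adj v u ∧ lev u < lev v), w u
        ≤ ∑ v ∈ J, ∑ u ∈ A.filter (fun u => G.Adj v u ∧ lev u < lev v), w u := by
      have h2 : A.filter (fun u => ∃ v ∈ J, G.Adj v u ∧ lev u < lev v)
          = J.biUnion (fun v => A.filter (fun u => G.Adj v u ∧ lev u < lev v)) := by
        ext u
        simp only [mem_filter, mem_biUnion]
        constructor
        · rintro ⟨h3, v, hv, h4⟩; exact ⟨v, hv, h3, h4⟩
        · rintro ⟨v, hv, h3, h4⟩; exact ⟨h3, v, hv, h4⟩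
      rw [h2]
      exact sum_biUnion_le w hw _ _
    refine h1.trans (sum_le_sum fun v hv => ?_)
    have hvA := hJA hv
    -- levels differ by at least `L`
    have h3 : ∀ u ∈ A.filter (fun u => G.Adj v u ∧ lev u < lev v),
        w u ≤ 2 / 2 ^ L * w v := by
      intro u hu
      obtain ⟨huA, -, hlt⟩ := mem_filter.1 hu
      have e1 : lev u % L = r := (mem_filter.1 huA).2
      have e2 : lev v % L = r := (mem_filter.1 hvA).2
      have e3 : lev u + L ≤ lev v := by
        have e4 := Int.mul_ediv_add_emod (lev u) L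
        have e5 := Int.mul_ediv_add_emod (lev v) L
        rw [e1] at e4
        rw [e2] at e5
        have e6 : lev u / L < lev v / L := by
          by_contra hcon
          have : (L:ℤ) * (lev v / L) ≤ L * (lev u / L) :=
            mul_le_mul_of_nonneg_left (not_lt.1 hcon) (by positivity)
          omega
        have e7 : (L:ℤ) * (lev u / L + 1) ≤ L * (lev v / L) :=
          mul_le_mul_of_nonneg_left (by omega) (by positivity)
        rw [mul_add, mul_one] at e7
        omega
      have e8 : (2:ℝ) ^ (lev u) * 2 ^ L ≤ (2:ℝ) ^ (lev v) := by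
        rw [← zpow_natCast, ← zpow_add₀ (by norm_num)]
        exact zpow_le_zpow_right₀ (by norm_num) e3
      have e9 := hlow v hvA
      have e10 := (hupp u huA).le
      rw [div_mul_eq_mul_div, le_div_iff₀ (by positivity)]
      have e11 : (0:ℝ) < 2 ^ L := by positivity
      nlinarith
    calc ∑ u ∈ A.filter (fun u => G.Adj v u ∧ lev u < lev v), w u
        ≤ ∑ _u ∈ A.filter (fun u => G.Adj v u ∧ lev u < lev v), 2 / 2 ^ L * w v := sum_le_sum h3
    _ = (A.filter (fun u => G.Adj v u ∧ lev u < lev v)).card * (2 / 2 ^ L * w v) := by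
          rw [sum_const, nsmul_eq_mul]
    _ ≤ d * (2 / 2 ^ L * w v) := by
          have h4 : (A.filter (fun u => G.Adj v u ∧ lev u < lev v)).card ≤ d := by
            refine le_trans ?_ (hd v)
            rw [← SimpleGraph.card_neighborFinset_eq_degree]
            apply card_le_card
            intro u hu
            rw [SimpleGraph.mem_neighborFinset]
            exact (mem_filter.1 hu).2.1
          have h5 : 0 ≤ 2 / 2 ^ L * w v := mul_nonneg (by positivity) (hw v)
          have h6 : ((A.filter (fun u => G.Adj v u ∧ lev u < lev v)).card : ℝ) ≤ d := by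
            exact_mod_cast h4
          gcongr
    _ ≤ w v := by
          have h5 : (2:ℝ) ^ L = 2 ^ (L - 1) * 2 := by
            rw [← pow_succ]; congr 1
          have h6 : d * (2 / 2 ^ L * w v) = (d / 2 ^ (L - 1)) * w v := by
            rw [h5]; field_simp
          rw [h6]
          have h7 : (d:ℝ) / 2 ^ (L - 1) ≤ 1 := by
            rw [div_le_one (by positivity)]; exact hLd
          calc (d:ℝ) / 2 ^ (L - 1) * w v ≤ 1 * w v := by
                apply mul_le_mul_of_nonneg_right h7 (hw v)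
          _ = w v := one_mul _
  have hsum : ∑ v ∈ A, w v
      = ∑ u ∈ A.filter (fun u => ∃ v ∈ J, G.Adj v u ∧ lev u < lev v), w u
        + ∑ u ∈ A.filter (fun u => ¬ ∃ v ∈ J, G.Adj v u ∧ lev u < lev v), w u :=
    (sum_filter_add_sum_filter_not _ _ _).symm
  have hAle : ∑ v ∈ A, w v ≤ (2 * ρ + 1) * ∑ v ∈ J, w v := by
    rw [hsum]; linarith
  calc ∑ v, w v ≤ L * ∑ v ∈ A, w v := htot
  _ ≤ L * ((2 * ρ + 1) * ∑ v ∈ J, w v) := by gcongr
  _ = (2 * ρ + 1) * (Nat.clog 2 d + 1) * ∑ v ∈ J, w v := by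
      rw [hL]; push_cast; ring

/-- Linear programming duality, in the form needed. -/
lemma duality (Λ : ℝ) (hΛ : 0 < Λ)
    (h : ∀ w : V → ℝ, (∀ v, 0 ≤ w v) → ∃ J : Finset V, G.IsIndepSet (J : Set V) ∧
      ∑ v, w v ≤ Λ * ∑ v ∈ J, w v) :
    ∃ μ : Finset V → ℝ, (∀ I, 0 ≤ μ I) ∧ (∀ I, μ I ≠ 0 → G.IsIndepSet (I : Set V)) ∧
      (∀ v, 1 ≤ ∑ I ∈ univ.filter (fun I : Finset V => v ∈ I), μ I) ∧ ∑ I, μ I ≤ Λ := by
  classical
  set ind : Finset V → (V → ℝ) := fun I v => if v ∈ I then 1 else 0 with hind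
  set 𝓘 : Finset (Finset V) := univ.filter (fun I => G.IsIndepSet (I : Set V)) with h𝓘
  set K : Set (V → ℝ) := convexHull ℝ ((𝓘.image ind : Finset (V → ℝ)) : Set (V → ℝ)) with hK
  set T : Set (V → ℝ) := {x | ∀ v, 1 / Λ ≤ x v} with hT
  have hKc : IsCompact K := (Finset.finite_toSet _).isCompact_convexHull ℝ
  have hTclosed : IsClosed T := by
    have : T = ⋂ v, {x : V → ℝ | 1 / Λ ≤ x v} := by ext x; simp [hT]
    rw [this]
    exact isClosed_iInter (fun v => isClosed_le continuous_const (continuous_apply v))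
  have hTconv : Convex ℝ T := by
    intro x hx y hy a b ha hb hab v
    have h1 := hx v
    have h2 := hy v
    simp only [Pi.add_apply, Pi.smul_apply, smul_eq_mul]
    calc 1 / Λ = a * (1 / Λ) + b * (1 / Λ) := by rw [← add_mul, hab, one_mul]
    _ ≤ a * x v + b * y v := by gcongr
  have hmeet : (K ∩ T).Nonempty := by
    by_contra hcon
    have hdisj : Disjoint K T := by
      rw [Set.disjoint_iff_inter_eq_empty]
      exact Set.not_nonempty_iff_eq_empty.1 hcon
    obtain ⟨f, u, v, hfu, huv, hfv⟩ := geometric_hahn_banach_compact_closed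
      (convex_convexHull ℝ _) hKc hTconv hTclosed hdisj
    set w : V → ℝ := fun i => f (Pi.single i 1) with hw
    have hf : ∀ x : V → ℝ, f x = ∑ i, x i * w i := by
      intro x
      conv_lhs => rw [← Finset.univ_sum_single x]
      rw [map_sum]
      apply sum_congr rfl
      intro i _
      have : (Pi.single i (x i) : V → ℝ) = x i • Pi.single i 1 := by
        rw [← Pi.single_smul, smul_eq_mul, mul_one]
      rw [this, map_smul, smul_eq_mul]
    have hw0 : ∀ i, 0 ≤ w i := by
      intro i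
      by_contra hneg
      rw [not_le] at hneg
      -- go to infinity in direction `i`
      have h1 : ∀ t : ℝ, 0 ≤ t → v < f (fun _ => 1 / Λ) + t * w i := by
        intro t ht
        have h2 : (fun _ => 1 / Λ) + t • (Pi.single i 1 : V → ℝ) ∈ T := by
          intro j
          simp only [Pi.add_apply, Pi.smul_apply, smul_eq_mul]
          have : (0:ℝ) ≤ t * (Pi.single i 1 : V → ℝ) j := by
            apply mul_nonneg ht
            by_cases hij : j = i
            · subst hij; simp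
            · rw [Pi.single_eq_of_ne hij]
          linarith
        have h3 := hfv _ h2
        rw [map_add, map_smul, smul_eq_mul] at h3
        exact h3
      have h4 := h1 0 le_rfl
      have h5 := h1 ((f (fun _ => 1 / Λ) - v) / (- w i)) (by
        apply div_nonneg <;> linarith)
      have h6 : (f (fun _ => 1 / Λ) - v) / (- w i) * w i = -(f (fun _ => 1 / Λ) - v) := by
        have : w i ≠ 0 := hneg.ne
        field_simp
      rw [h6] at h5
      linarith
    obtain ⟨J, hJ, hJw⟩ := h w hw0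
    have hJK : ind J ∈ K := subset_convexHull ℝ _ (by
      rw [Finset.mem_coe, Finset.mem_image]
      exact ⟨J, by simp [h𝓘, hJ], rfl⟩)
    have h1 := hfu _ hJK
    have h2 : f (ind J) = ∑ i ∈ J, w i := by
      rw [hf]
      simp only [hind, ite_mul, one_mul, zero_mul]
      rw [Finset.sum_ite_mem]; simp
    have h3 : v < f (fun _ => 1 / Λ) := hfv _ (fun _ => le_rfl)
    have h4 : f (fun _ => 1 / Λ) = (∑ i, w i) / Λ := by
      rw [hf, ← Finset.mul_sum]; ring
    rw [h2] at h1
    rw [h4] at h3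
    have h5 : (∑ i, w i) / Λ ≤ ∑ i ∈ J, w i := by
      rw [div_le_iff₀ hΛ]; linarith
    linarith
  obtain ⟨x, hxK, hxT⟩ := hmeet
  rw [hK, Finset.mem_convexHull'] at hxK
  obtain ⟨c, hc0, hc1, hcx⟩ := hxK
  -- `ind` is injective
  have hinj : Function.Injective ind := by
    intro I J hIJ
    ext v
    have := congrFun hIJ v
    simp only [hind] at this
    by_cases h1 : v ∈ I <;> by_cases h2 : v ∈ J <;> simp_all
  refine ⟨fun I => if I ∈ 𝓘 then Λ * c (ind I) else 0, ?_, ?_, ?_, ?_⟩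
  · intro I
    show 0 ≤ (if I ∈ 𝓘 then Λ * c (ind I) else 0)
    split_ifs with hI
    · exact mul_nonneg hΛ.le (hc0 _ (Finset.mem_image_of_mem _ hI))
    · exact le_rfl
  · intro I hI
    by_contra hcon
    apply hI
    show (if I ∈ 𝓘 then Λ * c (ind I) else 0) = 0
    rw [if_neg]
    intro h'
    exact hcon (mem_filter.1 h').2
  · intro v
    have h1 := hxT v
    rw [← hcx] at h1
    rw [Finset.sum_image (fun _ _ _ _ hh => hinj hh)] at h1
    simp only [Finset.sum_apply, Pi.smul_apply, smul_eq_mul] at h1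
    rw [div_le_iff₀ hΛ] at h1
    refine h1.trans (le_of_eq ?_)
    rw [Finset.sum_mul, ← Finset.sum_filter]
    rw [Finset.filter_filter]
    rw [Finset.sum_filter, h𝓘, Finset.sum_filter]
    apply sum_congr rfl
    intro I _
    simp only [hind, mem_filter, mem_univ, true_and]
    by_cases h1 : v ∈ I <;> by_cases h2 : G.IsIndepSet (I : Set V) <;> simp [h1, h2, mul_comm]
  · rw [← Finset.sum_filter, ← Finset.mul_sum]
    rw [Finset.sum_image (fun _ _ _ _ hh => hinj hh)] at hc1
    have : univ.filter (fun I => I ∈ 𝓘) = 𝓘 := by ext I; simp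
    rw [this, hc1, mul_one]

/-- The main theorem. -/
theorem main (ρ d : ℕ) (hd : ∀ v, G.degree v ≤ d)
    (hρ : ∀ S : Finset V, ∃ I ⊆ S, G.IsIndepSet (I : Set V) ∧ S.card ≤ ρ * I.card) :
    ∃ μ : Finset V → ℝ, (∀ I, 0 ≤ μ I) ∧ (∀ I, μ I ≠ 0 → G.IsIndepSet (I : Set V)) ∧
      (∀ v, 1 ≤ ∑ I ∈ univ.filter (fun I : Finset V => v ∈ I), μ I) ∧
      ∑ I, μ I ≤ (2 * ρ + 1) * (Nat.clog 2 d + 1) :=
  duality G _ (by positivity) (fun w hw => weighted G ρ d hd hρ w hw)

end Pool.Agent.Helper7.FracHall
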